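import Pool.Agent.MP_3b6db3_gt.H5U.Cor

open Pool.Agent.MP_3b6db3_gt.H5U

/-- An arithmetic constraint on closed chains of tangent discs in a packing of a torus. -/
theorem Pool.Agent.Results.MP_3b6db3_gt.Integrality.result
    (τ : ℂ) (hτ : 0 < τ.im) (n : ℕ) (c : Fin n → ℂ) (r : Fin n → ℝ)
    (C : Fin n × ℤ × ℤ → ℂ) (hC : ∀ p, C p = c p.1 + (p.2.1 : ℂ) * τ + (p.2.2 : ℂ))
    (pos : ∀ i, 0 < r i)
    (sep : ∀ p q, p ≠ q → r p.1 + r q.1 ≤ dist (C p) (C q))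
    (gap : ∀ x ∈ (⋃ p, Metric.closedBall (C p) (r p.1))ᶜ,
      Set.ncard {q | (Metric.closedBall (C q) (r q.1) ∩
        closure (connectedComponentIn (⋃ p, Metric.closedBall (C p) (r p.1))ᶜ x)).Nonempty} = 3)
    (X : Fin n × ℤ × ℤ → Fin n × ℤ × ℤ → ℝ)
    (hX : ∀ p q, X p q = (dist (C p) (C q) ^ 2 - (r p.1 - r q.1) ^ 2) / (4 * r p.1 * r q.1)) :
    (∀ (p : Fin n × ℤ × ℤ) (q : ℕ → Fin n × ℤ × ℤ) (m : ℕ),
      dist (C p) (C (q 0)) = r p.1 + r (q 0).1 →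
      (∀ i < m, dist (C (q i)) (C (q (i + 1))) = r (q i).1 + r (q (i + 1)).1) →
      dist (C (q m)) (C p) = r (q m).1 + r p.1 →
      ∀ O : ValuationSubring ℂ,
        (X (q 0) (q m) : ℂ) ∈ O ∨ ∃ i, 0 < i ∧ i < m ∧ (X p (q i) : ℂ) ∈ O) ∧
    ∀ (p₁ p₂ p₃ p₄ : Fin n × ℤ × ℤ) (ρ : ℝ) (z u v : ℂ),
      r p₁.1 = ρ → r p₂.1 = ρ → r p₃.1 = ρ → r p₄.1 = ρ →
      C p₁ = z → C p₂ = z + u → C p₃ = z + u + v → C p₄ = z + v → ‖u‖ = 2 * ρ → ‖v‖ = 2 * ρ →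
      IsIntegral ℤ (v / u) ∧
      ∀ a b x y x' y' : ℚ, τ ^ 2 + a * τ + b = 0 → u = x * τ + y → v = x' * τ + y' →
        v = u ∨ v = -u ∨
          ∃ s t : ℚ, τ = s + t * Complex.I ∨ τ = s + t * (Real.sqrt 3 : ℝ) * Complex.I := by
  have H : Pk C fun p => r p.1 :=
    ⟨fun p => pos _, sep, fun x M => by simpa only [hC] using per_fin hτ c r x M, gap⟩
  refine ⟨fun p q m h0 h hm O => ?_, fun p₁ p₂ p₃ p₄ ρ z u v r1 r2 r3 r4 c1 c2 c3 c4 hu hv => ?_⟩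
  · simp only [hX]
    exact H.chain (H.tn h0) (fun i hi => H.tn (h i hi)) (H.tn hm) O
  · have := H.rhombus r1 r2 r3 r4 c1 c2 c3 c4 hu hv
    refine ⟨this, fun a b x y x' y' h e e' => quad hτ h e e' (fun k => ?_) (hv.trans hu.symm) this⟩
    have := pos p₁.1
    rw [k, norm_zero] at hu
    linarith
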