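import Pool.Agent.MP_3b6db3_gt.H5.Cor

open Pool.Agent.MP_3b6db3_gt.H5

/-- New families of packable tori. -/
theorem Pool.Agent.Results.MP_3b6db3_gt.Layers.result :
    (∀ σ ∈ AddSubsemigroup.closure {σ : ℂ | Gen σ}, ∀ a b c d : ℚ, 0 < a * d - b * c →
      Packable ((a * σ + b) / (c * σ + d))) ∧
    (∀ k : ℕ, 1 ≤ k →
      (∃ φ : ℝ, 0 < φ ∧ (k + 1) * φ < Real.pi ∧ Real.cos φ ^ 2 + Real.cos ((k + 1) * φ) = 0) ∧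
      ∃ φ : ℝ, 0 < φ ∧ (k + 1) * φ < Real.pi ∧
        Real.cos (2 * φ) + Real.cos φ * Real.cos (k * φ) = 0) ∧
    (∀ d ∈ ({2, 3, 5, 6} : Set ℕ), ∀ x y : ℚ, 0 < y →
      Packable (x + y * (Real.sqrt d : ℝ) * Complex.I)) ∧
    (∀ D : ℕ, ∃ τ : ℂ, 0 < τ.im ∧ IsAlgebraic ℚ τ ∧ Packable τ ∧ D ≤ (minpoly ℚ τ).natDegree) ∧
    ∃ τ : ℂ, 0 < τ.im ∧ Packable τ ∧
      ∀ a b c : ℚ, a * ‖τ‖ ^ 2 + b * τ.re + c = 0 → a = 0 ∧ b = 0 ∧ c = 0 :=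
  ⟨fun _ h _ _ _ _ h' => (main h).packable h', angles, fun _ => quadratic, unbounded, generic⟩
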