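import Pool.Agent.MP_3b6db3_gt.H81.Main

open Pool.Agent.MP_3b6db3_gt.H5

/-- Every modulus in one of the fields `ℚ(i, √d)`, `d = 2, 3, 5, 6, 7`, is packable. -/
theorem Pool.Agent.Results.MP_3b6db3_gt.QuarticFields.result :
    ∀ d ∈ ({2, 3, 5, 6, 7} : Set ℕ),
      ∀ τ ∈ IntermediateField.adjoin ℚ {Complex.I, ((Real.sqrt d : ℝ) : ℂ)},
        0 < τ.im → Packable τ :=
  fun _ hd _ h h0 => Pool.Agent.MP_3b6db3_gt.H81.main hd h h0
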